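import Pool.Agent.Work.MP_54723a_co.PAL.Pal
import Pool.Agent.Work.MP_54723a_co.TransDegree

/-!
# The one-root statement (TOP) of note 7985 and the bound `|V| ≤ l ^ R`

`Topped c U lam b`: every `w ∈ U` has a label `lam w` which is not the colour of an arc of `U` out of
`w`, and every rainbow path of `U` which starts in `w` and avoids `lam w` has less than `b` edges.
`TopAt l b`: if `U` is topped and has no monochromatic path with `l` edges, then
`|U| + (l - 1) ^ b ≤ l ^ b`.

* `Bnd_succ_of_Top` : the theorem for `l` and `TopAt (l + 1) b` for all `b` give the theorem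
  for `l + 1`.
* `S08791_of_Top` : the frozen statement S08791 from `TopAt 3 b` for all `b`.
* `main_of_TopAll` : `f(l,k) = l^(k-1)` for all `l, k ≥ 1` from `TopAt l b` for all `l`, `b`.
* `TopAt_zero`, `TopAt_one_left`, `TopAt_one_right`, `TopAt_two` : the cases `b = 0`, `l = 1`,
  `b = 1` and `l = 2`.
* `Topped.out`, `Topped.root` : two ways to a topped set for `b` inside a topped set for `b + 1`.
-/

set_option autoImplicit false

namespace FlashRainbow

open Classical

variable {c : ℕ → ℕ → ℕ} {U V T : Finset ℕ} {l R b g : ℕ} {lam : ℕ → ℕ} {lev : ℕ → ℕ → ℕ}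

/-- the labels `lam` leave no vertex, and the rainbow paths which avoid the label of their first
vertex are short -/
def Topped (c : ℕ → ℕ → ℕ) (U : Finset ℕ) (lam : ℕ → ℕ) (b : ℕ) : Prop :=
  (∀ w ∈ U, ∀ x ∈ U, w < x → c w x ≠ lam w) ∧
    ∀ w ∈ U, ∀ D, RS c U w D → lam w ∉ D → D.card < b

/-- the statement (TOP) for one `l` and one `b` -/
def TopAt (l b : ℕ) : Prop :=
  ∀ (c : ℕ → ℕ → ℕ) (U : Finset ℕ) (lam : ℕ → ℕ), (∀ γ v, ¬ MP c U γ v l) → Topped c U lam b →
    U.card + (l - 1) ^ b ≤ l ^ b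

theorem Topped.mono (h : Topped c U lam b) (hTU : T ⊆ U) : Topped c T lam b :=
  ⟨fun w hw x hx => h.1 w (hTU hw) x (hTU hx), fun w hw D hD => h.2 w (hTU hw) D (hD.mono hTU)⟩

theorem Topped.pos (h : Topped c U lam b) (hne : U.Nonempty) : 1 ≤ b := by
  obtain ⟨w, hw⟩ := hne
  have h1 := h.2 w hw ∅ (RS.single hw) (Finset.notMem_empty _)
  omega

/-- a rainbow path of `T` and an arc of a new colour out of its last vertex -/
theorem RS.append {x : ℕ} {D : Finset ℕ} (h : RS c T x D) (hTV : T ⊆ V) (hg : g ∉ D)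
    (hout : ∀ v ∈ T, ∃ y ∈ V, v < y ∧ c v y = g) : RS c V x (insert g D) := by
  induction h with
  | @single x hx =>
    obtain ⟨y, hy, hxy, hcxy⟩ := hout x hx
    have h1 := RS.step (RS.single hy) (hTV hx) hxy (Finset.notMem_empty (c x y))
    rw [hcxy] at h1
    exact h1
  | @step x y D h hx hlt hc ih =>
    rw [Finset.mem_insert, not_or] at hg
    rw [Finset.insert_comm]
    refine RS.step (ih hg.2) (hTV hx) hlt ?_
    rw [Finset.mem_insert, not_or]
    exact ⟨fun h => hg.1 h.symm, hc⟩

/-- the part of a topped set whose vertices have an arc of colour `g` out of them is topped for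
`b`, if it has no arc of colour `g` -/
theorem Topped.out (h : Topped c U lam (b + 1)) (hTU : T ⊆ U)
    (hfree : ∀ u ∈ T, ∀ v ∈ T, u < v → c u v ≠ g)
    (hout : ∀ v ∈ T, ∃ y ∈ U, v < y ∧ c v y = g) : Topped c T lam b := by
  refine ⟨fun w hw x hx => h.1 w (hTU hw) x (hTU hx), fun w hw D hD hlD => ?_⟩
  have hg : g ∉ D := hD.notMem_of_free hfree
  have h1 := h.2 w (hTU hw) _ (hD.append hTU hg hout) (by
    rw [Finset.mem_insert, not_or]
    refine ⟨?_, hlD⟩
    obtain ⟨y, hy, hwy, hcwy⟩ := hout w hw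
    rw [← hcwy]
    exact fun h2 => h.1 w (hTU hw) y hy hwy h2.symm)
  rw [Finset.card_insert_of_notMem hg] at h1
  omega

/-- the colours of the arcs out of a vertex `w` are labels for `b` of a set of later vertices
without an arc of colour `lam w` -/
theorem Topped.root (h : Topped c U lam (b + 1)) (hTU : T ⊆ U) {w : ℕ} (hw : w ∈ U)
    (hwT : ∀ v ∈ T, w < v) (hfree : ∀ u ∈ T, ∀ v ∈ T, u < v → c u v ≠ lam w)
    (hne : ∀ u ∈ T, ∀ v ∈ T, u < v → c u v ≠ c w u) : Topped c T (fun v => c w v) b := by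
  refine ⟨hne, fun v hv D hD hlD => ?_⟩
  have hg : lam w ∉ D := hD.notMem_of_free hfree
  have h1 := h.2 w hw _ (RS.step (hD.mono hTU) hw (hwT v hv) hlD) (by
    rw [Finset.mem_insert, not_or]
    exact ⟨fun h2 => h.1 w hw v (hTU hv) (hwT v hv) h2.symm, hg⟩)
  rw [Finset.card_insert_of_notMem hlD] at h1
  omega

/-! ## Small cases -/

theorem TopAt_zero : TopAt l 0 := by
  intro c U lam _ h
  have h1 : U = ∅ := by
    by_contra hne
    have h2 := h.pos (Finset.nonempty_iff_ne_empty.mpr hne)
    omega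
  simp [h1]

theorem card_le_one_of_noMP_one (hno : ∀ γ v, ¬ MP c U γ v 1) : U.card ≤ 1 := by
  rw [Finset.card_le_one]
  intro a ha d hd
  by_contra had
  rcases lt_or_gt_of_ne had with hlt | hlt
  · exact hno _ _ (MP.step (MP.single ha) hd hlt rfl)
  · exact hno _ _ (MP.step (MP.single hd) ha hlt rfl)

theorem Topped.card_le_one (h : Topped c U lam 1) : U.card ≤ 1 := by
  have key : ∀ a ∈ U, ∀ d ∈ U, ¬ a < d := by
    intro a ha d hd hlt
    have h1 := h.2 a ha _ (RS.step (RS.single hd) ha hlt (Finset.notMem_empty _)) (by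
      rw [Finset.mem_insert, not_or]
      exact ⟨fun h2 => h.1 a ha d hd hlt h2.symm, Finset.notMem_empty _⟩)
    rw [Finset.card_insert_of_notMem (Finset.notMem_empty _)] at h1
    omega
  rw [Finset.card_le_one]
  intro a ha d hd
  exact le_antisymm (not_lt.mp (key d hd a ha)) (not_lt.mp (key a ha d hd))

theorem TopAt_one_left : TopAt 1 b := by
  rcases Nat.eq_zero_or_pos b with rfl | hb
  · exact TopAt_zero
  · intro c U lam hno _
    have h1 := card_le_one_of_noMP_one hno
    have h2 : (1 - 1 : ℕ) ^ b = 0 := by simp; omega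
    rw [h2]
    simpa using h1

theorem TopAt_one_right (hl : 1 ≤ l) : TopAt l 1 := by
  intro c U lam _ h
  have h1 := h.card_le_one
  rw [pow_one, pow_one]
  omega

/-- (TOP) for `l = 2` -/
theorem TopAt_two : TopAt 2 b := by
  induction b with
  | zero => exact TopAt_zero
  | succ b ih =>
    intro c U lam hno h
    rcases U.eq_empty_or_nonempty with rfl | hne
    · have h1 : 1 ≤ 2 ^ (b + 1) := Nat.one_le_two_pow
      simpa using h1
    · obtain ⟨x, hx, hmin⟩ : ∃ x ∈ U, ∀ v ∈ U, x ≤ v :=
        ⟨U.min' hne, U.min'_mem hne, fun v hv => U.min'_le v hv⟩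
      have hno2 : ∀ a ∈ U, ∀ d ∈ U, ∀ e ∈ U, a < d → d < e → c d e ≠ c a d := by
        intro a ha d hd e he had hde heq
        exact hno _ _ (MP.step (MP.step (MP.single ha) hd had rfl) he hde heq)
      set K := U.filter (fun v => ∃ y ∈ U, v < y ∧ c v y = lam x) with hK
      set S := U.filter (fun v => ¬ ∃ y ∈ U, v < y ∧ c v y = lam x) with hS
      have hKU : K ⊆ U := Finset.filter_subset _ _
      have hSU : S ⊆ U := Finset.filter_subset _ _
      have hcard : K.card + S.card = U.card := by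
        rw [hK, hS]
        exact Finset.card_filter_add_card_filter_not _
      have hxS : x ∈ S := by
        refine Finset.mem_filter.mpr ⟨hx, ?_⟩
        rintro ⟨y, hy, hxy, hcxy⟩
        exact h.1 x hx y hy hxy hcxy
      have hS1 : (S.erase x).card + 1 = S.card := Finset.card_erase_add_one hxS
      have hSU' : S.erase x ⊆ U := (Finset.erase_subset _ _).trans hSU
      have h1 : K.card + 1 ≤ 2 ^ b := by
        have h2 := ih c K lam (fun γ v hm => hno γ v (hm.mono hKU)) (h.out (g := lam x) hKU (by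
          intro u hu v hv huv heq
          obtain ⟨hvU, y, hy, hvy, hcvy⟩ := Finset.mem_filter.mp hv
          exact hno2 u (hKU hu) v hvU y hy huv hvy (hcvy.trans heq.symm)) (by
          intro v hv
          exact (Finset.mem_filter.mp hv).2))
        simpa using h2
      have h3 : (S.erase x).card + 1 ≤ 2 ^ b := by
        have hlt : ∀ v ∈ S.erase x, x < v := by
          intro v hv
          have h5 := hmin v (hSU' hv)
          have h6 := Finset.ne_of_mem_erase hv
          omega
        have h2 := ih c (S.erase x) _ (fun γ v hm => hno γ v (hm.mono hSU'))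
          (h.root hSU' hx hlt (by
            intro u hu v hv huv heq
            exact (Finset.mem_filter.mp (Finset.mem_of_mem_erase hu)).2 ⟨v, hSU' hv, huv, heq⟩) (by
            intro u hu v hv huv heq
            exact hno2 x hx u (hSU' hu) v (hSU' hv) (hlt u hu) huv heq))
        simpa using h2
      have h4 : (2 - 1 : ℕ) ^ (b + 1) = 1 := by simp
      rw [h4, pow_succ]
      omega

/-! ## From (TOP) to the theorem -/

/-- the ends of the monochromatic paths with `l` edges, labelled by their colours -/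
theorem Topped_ends (hl : 1 ≤ l) (hno : ∀ γ v, ¬ MP c V γ v (l + 1)) (hR : Rk c V R)
    (hUV : U ⊆ V) (hlam : ∀ w ∈ U, MP c V (lam w) w l) : Topped c U lam R := by
  refine ⟨?_, ?_⟩
  · intro w hw x hx hwx hc
    exact hno _ _ (MP.step (hlam w hw) (hUV hx) hwx hc)
  · intro w hw D hD hlD
    have h2 := hlam w hw
    obtain ⟨j, rfl⟩ : ∃ j, l = j + 1 := ⟨l - 1, by omega⟩
    generalize hγ : lam w = γ at h2 hlD
    cases h2 with
    | @step t _ _ ht hwV htw hc =>
      have htV : t ∈ V := by
        cases ht with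
        | single hx => exact hx
        | step _ hy _ _ => exact hy
      have h5 : RS c V t (insert (c t w) D) := RS.step (hD.mono hUV) htV htw (by rw [hc]; exact hlD)
      have h6 := h5.card_le hR
      rw [Finset.card_insert_of_notMem (by rw [hc]; exact hlD)] at h6
      omega

/-- the inductive step from `l` to `l + 1` -/
theorem Bnd_succ_of_Top (hl : 1 ≤ l) (hB : Bnd l) (h : ∀ b, TopAt (l + 1) b) :
    Bnd (l + 1) := by
  intro R c V lev hL hR
  have hno := hL.noMP
  set U : Finset ℕ := V.filter fun w => ∃ γ, MP c V γ w l with hU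
  have hUV : U ⊆ V := Finset.filter_subset _ _
  have hlam : ∀ w, ∃ γ, w ∈ U → MP c V γ w l := by
    intro w
    by_cases hw : w ∈ U
    · obtain ⟨γ, hγ⟩ := (Finset.mem_filter.mp hw).2
      exact ⟨γ, fun _ => hγ⟩
    · exact ⟨0, fun h => absurd h hw⟩
  choose lam hlam using hlam
  have h1 := h R c U lam (fun γ v hm => hno γ v (hm.mono hUV)) (Topped_ends hl hno hR hUV hlam)
  have h2 : (V \ U).card ≤ l ^ R := by
    obtain ⟨lev', hlev'⟩ := exists_Lev (c := c) (V := V \ U) (l := l) (by
      intro γ v hm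
      have hv : v ∈ V \ U := by
        cases hm with
        | single hx => exact hx
        | step _ hy _ _ => exact hy
      have hm' := hm.mono (Finset.sdiff_subset (s := V) (t := U))
      rw [Finset.mem_sdiff] at hv
      exact hv.2 (Finset.mem_filter.mpr ⟨hv.1, γ, hm'⟩))
    exact hB R c _ lev' hlev' (hR.sub Finset.sdiff_subset)
  have h3 := Finset.card_sdiff_add_card_eq_card hUV
  have h4 : (l + 1 - 1) ^ R = l ^ R := by simp
  omega

/-- the frozen statement S08791 from (TOP) for `l = 3` -/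
theorem S08791_of_Top (h : ∀ b, TopAt 3 b) :
    ∀ k : ℕ, 1 ≤ k →
      (∃ c : Fin (3 ^ (k - 1)) → Fin (3 ^ (k - 1)) → ℕ,
          (¬ ∃ x : Fin (3 + 1) → Fin (3 ^ (k - 1)), StrictMono x ∧
              ∃ col : ℕ, ∀ i : Fin 3, c (x i.castSucc) (x i.succ) = col) ∧
          (¬ ∃ y : Fin (k + 1) → Fin (3 ^ (k - 1)), StrictMono y ∧
              Function.Injective (fun i : Fin k => c (y i.castSucc) (y i.succ)))) ∧
      (∀ c : Fin (3 ^ (k - 1) + 1) → Fin (3 ^ (k - 1) + 1) → ℕ,
          (∃ x : Fin (3 + 1) → Fin (3 ^ (k - 1) + 1), StrictMono x ∧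
              ∃ col : ℕ, ∀ i : Fin 3, c (x i.castSucc) (x i.succ) = col) ∨
          (∃ y : Fin (k + 1) → Fin (3 ^ (k - 1) + 1), StrictMono y ∧
              Function.Injective (fun i : Fin k => c (y i.castSucc) (y i.succ)))) :=
  S08791_of_Bnd (Bnd_succ_of_Top (l := 2) (by norm_num) Bnd_two h)

/-- all `l` -/
theorem Bnd_of_TopAll (h : ∀ l b, 3 ≤ l → TopAt l b) : ∀ l, 1 ≤ l → Bnd l := by
  intro l hl
  induction l, hl using Nat.le_induction with
  | base => exact Bnd_one
  | succ l hl ih =>
    refine Bnd_succ_of_Top hl ih fun b => ?_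
    rcases Nat.eq_or_lt_of_le hl with rfl | hl1
    · exact TopAt_two
    · exact h (l + 1) b (by omega)

/-- the whole problem: `f(l,k) = l^(k-1)` for all `l, k ≥ 1` -/
theorem main_of_TopAll (h : ∀ l b, 3 ≤ l → TopAt l b) {l : ℕ} (hl : 1 ≤ l) :
    ∀ k : ℕ, 1 ≤ k →
      (∃ c : Fin (l ^ (k - 1)) → Fin (l ^ (k - 1)) → ℕ,
          (¬ ∃ x : Fin (l + 1) → Fin (l ^ (k - 1)), StrictMono x ∧
              ∃ col : ℕ, ∀ i : Fin l, c (x i.castSucc) (x i.succ) = col) ∧
          (¬ ∃ y : Fin (k + 1) → Fin (l ^ (k - 1)), StrictMono y ∧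
              Function.Injective (fun i : Fin k => c (y i.castSucc) (y i.succ)))) ∧
      (∀ c : Fin (l ^ (k - 1) + 1) → Fin (l ^ (k - 1) + 1) → ℕ,
          (∃ x : Fin (l + 1) → Fin (l ^ (k - 1) + 1), StrictMono x ∧
              ∃ col : ℕ, ∀ i : Fin l, c (x i.castSucc) (x i.succ) = col) ∨
          (∃ y : Fin (k + 1) → Fin (l ^ (k - 1) + 1), StrictMono y ∧
              Function.Injective (fun i : Fin k => c (y i.castSucc) (y i.succ)))) :=
  main_of_Bnd hl (Bnd_of_TopAll h l hl)

end FlashRainbow
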